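import Pool.Agent.Helper45.AM.GoalsA
import Pool.Agent.Helper35.RA.V1

/-!
# Project AM, packet AM-AS: supports in parabolic subgroups.
-/

set_option autoImplicit false

open LaurentPolynomial

noncomputable section

namespace Pool.Agent.Helper14.AM

open Pool.Agent.Helper15.RA Pool.Agent.Helper45.AM Pool.Agent.Helper35.RA

section

variable {S W : Type} [Group W] {M : CoxeterMatrix S} (cs : CoxeterSystem M W)

/-- Induction in a parabolic subgroup, from the left. -/
theorem par_ind_left (P : Set S) (q : W → Prop) (h1 : q 1)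
    (hs : ∀ i ∈ P, ∀ w, q w → q (cs.simple i * w)) : ∀ w ∈ par cs P, q w := by
  intro w hw
  refine Subgroup.closure_induction_left (p := fun x _ => q x) h1 ?_ ?_ hw
  · rintro x ⟨i, hi, rfl⟩ y _ hy
    exact hs i hi y hy
  · rintro x ⟨i, hi, rfl⟩ y _ hy
    rw [cs.inv_simple]
    exact hs i hi y hy

/-- Induction in a parabolic subgroup, from the right. -/
theorem par_ind_right (P : Set S) (q : W → Prop) (h1 : q 1)
    (hs : ∀ i ∈ P, ∀ w, q w → q (w * cs.simple i)) : ∀ w ∈ par cs P, q w := by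
  intro w hw
  refine Subgroup.closure_induction_right (p := fun x _ => q x) h1 ?_ ?_ hw
  · rintro y _ x ⟨i, hi, rfl⟩ hy
    exact hs i hi y hy
  · rintro y _ x ⟨i, hi, rfl⟩ hy
    rw [cs.inv_simple]
    exact hs i hi y hy

theorem simple_mem_par {P : Set S} {i : S} (hi : i ∈ P) : cs.simple i ∈ par cs P :=
  Subgroup.subset_closure ⟨i, hi, rfl⟩

end

section

variable {S W H : Type} [Group W] [Ring H] [Algebra ℤ[T;T⁻¹] H]

/-- PACKET AM-AS. -/
theorem h_a_s (hH1 : H_1) (hH2 : H_2) : A_S := by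
  intro S W H _ _ _ X P
  obtain ⟨ht1, hup, hdown, hup', hdown', -, -, -⟩ := hH1 S W H X.M X.cs X.L X.D.toHecke0
  obtain ⟨hsemi, hb1, hb2, hc1, hc2, hc3, -, -, hcs, -⟩ := hH2 S W H X.M X.cs X.L X.wt X.D
  set R : Set W := (par X.cs P : Set W) with hRdef
  have hR1 : (1 : W) ∈ R := (par X.cs P).one_mem
  have hRi : ∀ i ∈ P, X.cs.simple i ∈ R := fun i hi => simple_mem_par X.cs hi
  -- multiplication by simple reflections, on the left
  have hsm : ∀ Q : Set W, (∀ i ∈ P, ∀ z ∈ Q, X.cs.simple i * z ∈ Q) → ∀ i ∈ P,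
      ∀ Z ∈ SupR X.D.t Q, X.D.t (X.cs.simple i) * Z ∈ SupR X.D.t Q := by
    intro Q hQ i hi Z hZ
    refine map_mem X.D.t Q _ (LinearMap.mulLeft _ (X.D.t (X.cs.simple i))) (fun g hg => ?_) hZ
    rw [LinearMap.mulLeft_apply]
    rcases X.cs.length_simple_mul g i with h1 | h1
    · rw [hup i g h1]
      exact t_mem X.D.t Q (hQ i hi g hg)
    · rw [hdown i g h1]
      exact Submodule.add_mem _ (Submodule.smul_mem _ _ (t_mem X.D.t Q hg))
        (t_mem X.D.t Q (hQ i hi g hg))
  -- and on the right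
  have hsm' : ∀ Q : Set W, (∀ i ∈ P, ∀ z ∈ Q, z * X.cs.simple i ∈ Q) → ∀ i ∈ P,
      ∀ Z ∈ SupR X.D.t Q, Z * X.D.t (X.cs.simple i) ∈ SupR X.D.t Q := by
    intro Q hQ i hi Z hZ
    refine map_mem X.D.t Q _ (LinearMap.mulRight _ (X.D.t (X.cs.simple i))) (fun g hg => ?_) hZ
    rw [LinearMap.mulRight_apply]
    rcases X.cs.length_mul_simple g i with h1 | h1
    · rw [hup' i g h1]
      exact t_mem X.D.t Q (hQ i hi g hg)
    · rw [hdown' i g h1]
      exact Submodule.add_mem _ (Submodule.smul_mem _ _ (t_mem X.D.t Q hg))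
        (t_mem X.D.t Q (hQ i hi g hg))
  -- the product with `T_(s g)`
  have hstep : ∀ i w, X.D.t (X.cs.simple i * w) = X.D.t (X.cs.simple i) * X.D.t w ∨
      X.D.t (X.cs.simple i * w) = X.D.t (X.cs.simple i) * X.D.t w -
        xi (X.L (X.cs.simple i)) • X.D.t w := by
    intro i w
    rcases X.cs.length_simple_mul w i with h1 | h1
    · exact Or.inl (hup i w h1).symm
    · right
      rw [hdown i w h1, add_sub_cancel_left]
  have hstep' : ∀ i w, X.D.t (w * X.cs.simple i) = X.D.t w * X.D.t (X.cs.simple i) ∨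
      X.D.t (w * X.cs.simple i) = X.D.t w * X.D.t (X.cs.simple i) -
        xi (X.L (X.cs.simple i)) • X.D.t w := by
    intro i w
    rcases X.cs.length_mul_simple w i with h1 | h1
    · exact Or.inl (hup' i w h1).symm
    · right
      rw [hdown' i w h1, add_sub_cancel_left]
  -- multiplication
  have hmul : ∀ Q : Set W, (∀ i ∈ P, ∀ z ∈ Q, X.cs.simple i * z ∈ Q) → ∀ g ∈ par X.cs P,
      ∀ Z ∈ SupR X.D.t Q, X.D.t g * Z ∈ SupR X.D.t Q := by
    intro Q hQ
    refine par_ind_left X.cs P _ ?_ ?_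
    · intro Z hZ
      rw [ht1, one_mul]
      exact hZ
    · intro i hi w ih Z hZ
      rcases hstep i w with h | h
      · rw [h, mul_assoc]
        exact hsm Q hQ i hi _ (ih Z hZ)
      · rw [h, sub_mul, mul_assoc, smul_mul_assoc]
        exact Submodule.sub_mem _ (hsm Q hQ i hi _ (ih Z hZ))
          (Submodule.smul_mem _ _ (ih Z hZ))
  have hmul' : ∀ Q : Set W, (∀ i ∈ P, ∀ z ∈ Q, z * X.cs.simple i ∈ Q) → ∀ g ∈ par X.cs P,
      ∀ Z ∈ SupR X.D.t Q, Z * X.D.t g ∈ SupR X.D.t Q := by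
    intro Q hQ
    refine par_ind_right X.cs P _ ?_ ?_
    · intro Z hZ
      rw [ht1, mul_one]
      exact hZ
    · intro i hi w ih Z hZ
      rcases hstep' i w with h | h
      · rw [h, ← mul_assoc]
        exact hsm' Q hQ i hi _ (ih Z hZ)
      · rw [h, mul_sub, ← mul_assoc, mul_smul_comm]
        exact Submodule.sub_mem _ (hsm' Q hQ i hi _ (ih Z hZ))
          (Submodule.smul_mem _ _ (ih Z hZ))
  have hRs : ∀ i ∈ P, ∀ z ∈ R, X.cs.simple i * z ∈ R := fun i hi z hz =>
    (par X.cs P).mul_mem (hRi i hi) hz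
  have hmul2 : ∀ Y ∈ SupR X.D.t R, ∀ Z ∈ SupR X.D.t R, Y * Z ∈ SupR X.D.t R := by
    intro Y hY Z hZ
    exact map_mem X.D.t R _ (LinearMap.mulRight _ Z) (fun g hg => hmul R hRs g hg Z hZ) hY
  -- (1), (2)
  have h1 : ∀ g ∈ par X.cs P, ∀ w z, X.D.t.repr (X.D.t g * X.D.t w) z ≠ 0 → z * w⁻¹ ∈ par X.cs P := by
    intro g hg w
    refine hmul {z | z * w⁻¹ ∈ par X.cs P} ?_ g hg _ (t_mem X.D.t _ ?_)
    · intro i hi z hz
      rw [Set.mem_ofPred_eq, mul_assoc]
      exact (par X.cs P).mul_mem (hRi i hi) hz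
    · rw [Set.mem_ofPred_eq, mul_inv_cancel]
      exact hR1
  have h2 : ∀ g ∈ par X.cs P, ∀ w z, X.D.t.repr (X.D.t w * X.D.t g) z ≠ 0 → w⁻¹ * z ∈ par X.cs P := by
    intro g hg w
    refine hmul' {z | w⁻¹ * z ∈ par X.cs P} ?_ g hg _ (t_mem X.D.t _ ?_)
    · intro i hi z hz
      rw [Set.mem_ofPred_eq, ← mul_assoc]
      exact (par X.cs P).mul_mem hz (hRi i hi)
    · rw [Set.mem_ofPred_eq, inv_mul_cancel]
      exact hR1
  -- bar
  have hbs : ∀ i, X.D.bar (X.D.t (X.cs.simple i)) = X.D.t (X.cs.simple i) +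
      ((T (-(X.L (X.cs.simple i) : ℤ)) : ℤ[T;T⁻¹]) - T (X.L (X.cs.simple i) : ℤ)) • 1 := by
    intro i
    have h1 := X.D.bar_c (X.cs.simple i)
    rw [hcs i, map_add, hsemi, map_one, invert_T, neg_neg] at h1
    rw [sub_smul, ← add_sub_assoc, ← h1, add_sub_cancel_right]
  have hbsm : ∀ i ∈ P, ∀ Z ∈ SupR X.D.t R, X.D.bar (X.D.t (X.cs.simple i)) * Z ∈ SupR X.D.t R := by
    intro i hi Z hZ
    rw [hbs, add_mul, smul_mul_assoc, one_mul]
    exact Submodule.add_mem _ (hsm R hRs i hi _ hZ) (Submodule.smul_mem _ _ hZ)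
  have hbar : ∀ g ∈ par X.cs P, X.D.bar (X.D.t g) ∈ SupR X.D.t R := by
    refine par_ind_left X.cs P _ ?_ ?_
    · rw [ht1, map_one, ← ht1]
      exact t_mem X.D.t R hR1
    · intro i hi w ih
      rcases hstep i w with h | h
      · rw [h, map_mul]
        exact hbsm i hi _ ih
      · rw [h, map_sub, map_mul, hsemi]
        exact Submodule.sub_mem _ (hbsm i hi _ ih) (Submodule.smul_mem _ _ ih)
  -- c
  have hc : ∀ g ∈ par X.cs P, X.D.c g ∈ SupR X.D.t R := by
    intro g hg
    by_contra hne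
    rw [mem_SupR] at hne
    push Not at hne
    obtain ⟨k, hk1, hk2⟩ := hne
    set q : W →₀ ℤ[T;T⁻¹] := (X.D.t.repr (X.D.c g)).mapRange (invert : ℤ[T;T⁻¹] → ℤ[T;T⁻¹])
      (map_zero _) with hq
    obtain ⟨y₀, hy1, hy2, hy3⟩ := top_coeff (cs := X.cs) X.D.t R (fun y => X.D.bar (X.D.t y))
      (fun y hy => hbar y hy) hb1 hb2 q ⟨k, hk2, by
        rw [hq, Finsupp.mapRange_apply]
        exact fun h => hk1 (by simpa using h)⟩
    have h1 : (q.sum fun y p => p • X.D.bar (X.D.t y)) = X.D.c g := by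
      rw [hq, Finsupp.sum_mapRange_index (by simp)]
      conv_rhs => rw [← X.D.bar_c g, eq_sum X.D.t (X.D.c g), Finsupp.sum, map_sum]
      rw [Finsupp.sum]
      exact Finset.sum_congr rfl fun z _ => (hsemi _ _).symm
    rw [h1, hq, Finsupp.mapRange_apply] at hy3
    have h2 : y₀ ≠ g := fun h => hy1 (by rw [h]; exact hg)
    have h3 := eq_zero_of_invert (hc3 g y₀ h2) hy3.symm
    apply hy2
    rw [hq, Finsupp.mapRange_apply, h3, map_zero]
  -- (7)
  have h7 : ∀ Z : H, Z ∈ SupR X.D.t R ↔ ∀ z, X.b.repr Z z ≠ 0 → z ∈ par X.cs P := by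
    intro Z
    constructor
    · intro hZ k hk
      by_contra hkR
      obtain ⟨y₀, hy1, hy2, hy3⟩ := top_coeff (cs := X.cs) X.D.t R X.D.c hc hc1 hc2
        (X.b.repr Z) ⟨k, hkR, hk⟩
      have h8 : ((X.b.repr Z).sum fun y p => p • X.D.c y) = Z := by
        conv_rhs => rw [eq_sum X.b Z]
        simp only [X.hb]
      rw [h8] at hy3
      apply hy1
      apply hZ
      rw [hy3]
      exact hy2
    · intro hZ
      rw [eq_sum X.b Z, Finsupp.sum]
      refine Submodule.sum_mem _ fun z hz => Submodule.smul_mem _ _ ?_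
      rw [X.hb]
      exact hc z (hZ z (Finsupp.mem_support_iff.1 hz))
  have hbc : ∀ x y, X.b.repr (X.D.c x * X.D.c y) = X.h x y := by
    intro x y
    rw [X.isH x y, Finsupp.sum, map_sum]
    simp only [← X.hb, map_smul, Module.Basis.repr_self, Finsupp.smul_single, smul_eq_mul, mul_one]
    exact Finsupp.sum_single (X.h x y)
  -- the projection
  have hprin : ∀ (Z : H) (z : W), z ∈ par X.cs P → X.D.t.repr (X.pr P Z) z = X.D.t.repr Z z := by
    intro Z z hz
    unfold Base.pr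
    rw [LinearEquiv.apply_symm_apply]
    classical
    rw [Finsupp.filter_apply]
    exact if_pos hz
  have hprout : ∀ (Z : H) (z : W), z ∉ par X.cs P → X.D.t.repr (X.pr P Z) z = 0 := by
    intro Z z hz
    unfold Base.pr
    rw [LinearEquiv.apply_symm_apply]
    classical
    rw [Finsupp.filter_apply]
    exact if_neg hz
  have hext : ∀ Y Z : H, (∀ z, X.D.t.repr Y z = X.D.t.repr Z z) → Y = Z := fun Y Z h =>
    X.D.t.repr.injective (Finsupp.ext h)
  have hpradd : ∀ Y Z : H, X.pr P (Y + Z) = X.pr P Y + X.pr P Z := by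
    intro Y Z
    apply hext
    intro z
    rw [map_add, Finsupp.add_apply]
    by_cases hz : z ∈ par X.cs P
    · rw [hprin _ z hz, hprin _ z hz, hprin _ z hz, map_add, Finsupp.add_apply]
    · rw [hprout _ z hz, hprout _ z hz, hprout _ z hz, add_zero]
  have hprsmul : ∀ (p : ℤ[T;T⁻¹]) (Z : H), X.pr P (p • Z) = p • X.pr P Z := by
    intro p Z
    apply hext
    intro z
    rw [map_smul, Finsupp.smul_apply]
    by_cases hz : z ∈ par X.cs P
    · rw [hprin _ z hz, hprin _ z hz, map_smul, Finsupp.smul_apply]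
    · rw [hprout _ z hz, hprout _ z hz, smul_zero]
  have hprself : ∀ Z : H, Z ∈ SupR X.D.t R → X.pr P Z = Z := by
    intro Z hZ
    apply hext
    intro z
    by_cases hz : z ∈ par X.cs P
    · exact hprin Z z hz
    · rw [hprout Z z hz]
      by_contra h
      exact hz (hZ z (Ne.symm h))
  have hprzero : ∀ Z : H, (∀ z, X.D.t.repr Z z ≠ 0 → z ∉ par X.cs P) → X.pr P Z = 0 := by
    intro Z hZ
    apply hext
    intro z
    rw [map_zero, Finsupp.zero_apply]
    by_cases hz : z ∈ par X.cs P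
    · rw [hprin Z z hz]
      by_contra h
      exact hZ z h hz
    · exact hprout Z z hz
  let pL : H →ₗ[ℤ[T;T⁻¹]] H :=
    { toFun := X.pr P
      map_add' := hpradd
      map_smul' := hprsmul }
  have hpL : ∀ Z, pL Z = X.pr P Z := fun _ => rfl
  have htout : ∀ w, w ∉ par X.cs P → X.pr P (X.D.t w) = 0 := by
    intro w hw
    apply hprzero
    intro z hz
    have := t_mem X.D.t {z | z ∉ par X.cs P} (g := w) hw
    exact this z hz
  have htin : ∀ w, w ∈ par X.cs P → X.pr P (X.D.t w) = X.D.t w := fun w hw =>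
    hprself _ (t_mem X.D.t R hw)
  refine ⟨h1, h2, hbar, hc, fun g hg => (h7 _).1 (t_mem X.D.t R hg), ?_, h7, hpradd, hprsmul, hprself,
    ?_, hprin, ?_⟩
  · intro x hx y hy z hz
    rw [← hbc] at hz
    exact (h7 _).1 (hmul2 _ (hc x hx) _ (hc y hy)) z hz
  · intro Z z hz
    by_cases h : z ∈ par X.cs P
    · exact ⟨h, hprin Z z h⟩
    · exact absurd (hprout Z z h) hz
  · intro Z Z' hZ'
    constructor
    · have key : pL ∘ₗ LinearMap.mulRight ℤ[T;T⁻¹] Z' = LinearMap.mulRight ℤ[T;T⁻¹] Z' ∘ₗ pL := by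
        refine X.D.t.ext fun w => ?_
        rw [LinearMap.comp_apply, LinearMap.comp_apply, LinearMap.mulRight_apply,
          LinearMap.mulRight_apply, hpL, hpL]
        by_cases hw : w ∈ par X.cs P
        · rw [htin w hw]
          exact hprself _ (hmul2 _ (t_mem X.D.t R hw) _ hZ')
        · rw [htout w hw, zero_mul]
          apply hprzero
          have h3 : X.D.t w * Z' ∈ SupR X.D.t {z | w⁻¹ * z ∈ par X.cs P} :=
            map_mem X.D.t R (SupR X.D.t {z | w⁻¹ * z ∈ par X.cs P})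
              (LinearMap.mulLeft _ (X.D.t w)) (fun g hg => h2 g hg w) hZ'
          intro z hz hzR
          refine hw ?_
          have h4 := (par X.cs P).mul_mem hzR ((par X.cs P).inv_mem (h3 z hz))
          rwa [mul_inv_rev, inv_inv, mul_inv_cancel_left] at h4
      exact DFunLike.congr_fun key Z
    · have key : pL ∘ₗ LinearMap.mulLeft ℤ[T;T⁻¹] Z' = LinearMap.mulLeft ℤ[T;T⁻¹] Z' ∘ₗ pL := by
        refine X.D.t.ext fun w => ?_
        rw [LinearMap.comp_apply, LinearMap.comp_apply, LinearMap.mulLeft_apply,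
          LinearMap.mulLeft_apply, hpL, hpL]
        by_cases hw : w ∈ par X.cs P
        · rw [htin w hw]
          exact hprself _ (hmul2 _ hZ' _ (t_mem X.D.t R hw))
        · rw [htout w hw, mul_zero]
          apply hprzero
          have h3 : Z' * X.D.t w ∈ SupR X.D.t {z | z * w⁻¹ ∈ par X.cs P} :=
            map_mem X.D.t R (SupR X.D.t {z | z * w⁻¹ ∈ par X.cs P})
              (LinearMap.mulRight _ (X.D.t w)) (fun g hg => h1 g hg w) hZ'
          intro z hz hzR
          refine hw ?_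
          have h4 := (par X.cs P).mul_mem ((par X.cs P).inv_mem (h3 z hz)) hzR
          rwa [mul_inv_rev, inv_inv, inv_mul_cancel_right] at h4
      exact DFunLike.congr_fun key Z

end

end Pool.Agent.Helper14.AM
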